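import Pool.Agent.H51.MFL.S

/-!
# Ordered monomials over a commutative ring

As `H3/MFQ/Ord.lean`, over any commutative ring. `mo_mul`: the product of two ordered monomials is
the ordered monomial of the sum of the exponents, modulo lower degree. `ex_rep`: representations from
commutation relations.
-/

set_option autoImplicit false

open Module MvPolynomial

namespace Pool.MFL.OR

open Pool.MFQ.Ord (mo mo_zero mo_head ex_head sum_single)

section alg

variable {R U : Type} [CommRing R] [Ring U] [Algebra R U]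

/-- The span of the ordered monomials of degree less than `k`. -/
def low (R : Type) {U : Type} [CommRing R] [Ring U] [Algebra R U] {n : ℕ} (x : Fin n → U) (k : ℕ) :
    Submodule R U :=
  Submodule.span R {u | ∃ α : Fin n → ℕ, ∑ i, α i < k ∧ u = mo x α}

theorem low_mono {n : ℕ} (x : Fin n → U) {k l : ℕ} (h : k ≤ l) : low R x k ≤ low R x l :=
  Submodule.span_mono fun _ ⟨α, h1, h2⟩ => ⟨α, h1.trans_le h, h2⟩

theorem mem_low {n : ℕ} (x : Fin n → U) {k : ℕ} {α : Fin n → ℕ} (h : ∑ i, α i < k) :
    mo x α ∈ low R x k := Submodule.subset_span ⟨α, h, rfl⟩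

/-- Multiplication of the ordered monomials of lower degree. -/
theorem low_mul {n : ℕ} {x : Fin n → U} {k : ℕ} {i : Fin n}
    (h : ∀ α : Fin n → ℕ, ∑ j, α j < k → x i * mo x α ∈ low R x (∑ j, α j + 2)) {u : U}
    (hu : u ∈ low R x k) : x i * u ∈ low R x (k + 1) := by
  refine Submodule.span_induction (p := fun u _ => x i * u ∈ low R x (k + 1)) ?_ ?_ ?_ ?_ hu
  · rintro u ⟨α, h1, rfl⟩
    exact low_mono x (by omega) (h α h1)
  · rw [mul_zero]
    exact zero_mem _
  · intro u v _ _ h1 h2
    rw [mul_add]
    exact add_mem h1 h2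
  · intro c u _ h1
    rw [mul_smul_comm]
    exact Submodule.smul_mem _ c h1

/-- **The product with `x i`** is the ordered monomial, modulo lower degree. -/
theorem mo_swap {n : ℕ} {x : Fin n → U}
    (hx : ∀ i j, ∃ c : Fin n → R, x i * x j - x j * x i = ∑ k, c k • x k) (k : ℕ) :
    ∀ (i : Fin n) (α : Fin n → ℕ), ∑ j, α j = k →
      x i * mo x α - mo x (α + Pi.single i 1) ∈ low R x (k + 1) := by
  induction k using Nat.strong_induction_on with
  | _ k ih =>
  have hmul : ∀ (i : Fin n) (α : Fin n → ℕ), ∑ j, α j < k → x i * mo x α ∈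
      low R x (∑ j, α j + 2) := fun i α h => by
    have h1 := ih _ h i α rfl
    have h2 : x i * mo x α = (x i * mo x α - mo x (α + Pi.single i 1)) +
      mo x (α + Pi.single i 1) := (sub_add_cancel _ _).symm
    rw [h2]
    exact add_mem (low_mono x (by omega) h1) (mem_low x (by rw [sum_single]; omega))
  intro i α hα
  by_cases hz : ∀ j < i, α j = 0
  · rw [mo_head x i α hz, sub_self]
    exact zero_mem _
  · push Not at hz
    obtain ⟨i', hi', hαi'⟩ := hz
    obtain ⟨j, β, h1, h2, h3, h4, h5⟩ := ex_head hαi'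
    have hji : j < i := h1.trans_lt hi'
    have hβk : ∑ l, β l < k := by omega
    have e1 : mo x α = x j * mo x β := by rw [mo_head x j β h2, ← h4]
    have e2 : x j * mo x (β + Pi.single i 1) = mo x (α + Pi.single i 1) := by
      rw [mo_head x j (β + Pi.single i 1) fun l hl => by
        rw [Pi.add_apply, h2 l hl, Pi.single_eq_of_ne (hl.trans hji).ne, add_zero], h4,
        add_right_comm]
    obtain ⟨c, hc⟩ := hx i j
    have e3 : x i * mo x α - mo x (α + Pi.single i 1) =
        x j * (x i * mo x β - mo x (β + Pi.single i 1)) + ∑ l, c l • (x l * mo x β) := by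
      have e4 : ∑ l, c l • (x l * mo x β) = (x i * x j - x j * x i) * mo x β := by
        rw [hc, Finset.sum_mul]
        exact Finset.sum_congr rfl fun l _ => (smul_mul_assoc _ _ _).symm
      rw [e4, e1, ← e2, mul_sub, sub_mul]
      simp only [mul_assoc]
      abel
    rw [e3]
    refine add_mem ?_ (sum_mem fun l _ => Submodule.smul_mem _ _ ?_)
    · have h6 := ih _ hβk i β rfl
      have h7 := low_mul (k := ∑ l, β l + 1) (i := j) (fun α' hα' => hmul j α' (by omega)) h6
      exact low_mono x (by omega) h7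
    · exact low_mono x (by omega) (hmul l β hβk)

/-- The product with `x i`. -/
theorem mul_low {n : ℕ} {x : Fin n → U}
    (hx : ∀ i j, ∃ c : Fin n → R, x i * x j - x j * x i = ∑ k, c k • x k) {k : ℕ} (i : Fin n)
    {u : U} (hu : u ∈ low R x k) : x i * u ∈ low R x (k + 1) := by
  refine low_mul (fun α _ => ?_) hu
  have h1 := mo_swap hx _ i α rfl
  have h2 : x i * mo x α = (x i * mo x α - mo x (α + Pi.single i 1)) +
    mo x (α + Pi.single i 1) := (sub_add_cancel _ _).symm
  rw [h2]
  exact add_mem (low_mono x (by omega) h1) (mem_low x (by rw [sum_single]; omega))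

/-- **Products of ordered monomials**, modulo lower degree. -/
theorem mo_mul {n : ℕ} {x : Fin n → U}
    (hx : ∀ i j, ∃ c : Fin n → R, x i * x j - x j * x i = ∑ k, c k • x k) (k : ℕ) :
    ∀ α β : Fin n → ℕ, ∑ j, α j = k →
      mo x α * mo x β - mo x (α + β) ∈ low R x (∑ j, α j + ∑ j, β j) := by
  induction k with
  | zero =>
    intro α β hα
    have h1 : α = 0 := by
      funext i
      exact (Finset.sum_eq_zero_iff.1 hα) i (Finset.mem_univ i)
    rw [h1, mo_zero, one_mul, zero_add, sub_self]
    exact zero_mem _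
  | succ k ih =>
    intro α β hα
    have h1 : ∃ i, α i ≠ 0 := by
      by_contra hcon
      push Not at hcon
      rw [Finset.sum_eq_zero fun i _ => hcon i] at hα
      omega
    obtain ⟨i, hi⟩ := h1
    obtain ⟨j, α', -, h2, -, h4, h5⟩ := ex_head hi
    have h6 := ih α' β (by omega)
    have h7 := mul_low hx j h6
    have h8 := mo_swap hx _ j (α' + β) rfl
    have e1 : ∑ l, (α' + β : Fin n → ℕ) l = ∑ l, α' l + ∑ l, β l := by
      simp only [Pi.add_apply]
      rw [Finset.sum_add_distrib]
    rw [e1] at h8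
    have e2 : α' + β + Pi.single j 1 = α + β := by
      rw [h4, add_right_comm]
    rw [e2] at h8
    have e3 : mo x α * mo x β - mo x (α + β) =
        x j * (mo x α' * mo x β - mo x (α' + β)) + (x j * mo x (α' + β) - mo x (α + β)) := by
      have e4 : mo x α = x j * mo x α' := by rw [mo_head x j α' h2, ← h4]
      rw [e4, mul_sub, mul_assoc]
      abel
    rw [e3]
    exact add_mem (low_mono x (by omega) h7) (low_mono x (by omega) h8)

end alg

section lie

attribute [local instance 100] LieRing.ofAssociativeRing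

variable {R L : Type} [CommRing R] [LieRing L] [LieAlgebra R L]

/-- The elements of a basis in the enveloping algebra. -/
theorem comm_basis {n : ℕ} (b : Basis (Fin n) R L) (i j : Fin n) :
    UniversalEnvelopingAlgebra.ι R (b i) * UniversalEnvelopingAlgebra.ι R (b j) -
      UniversalEnvelopingAlgebra.ι R (b j) * UniversalEnvelopingAlgebra.ι R (b i) =
      ∑ k, b.repr ⁅b i, b j⁆ k • UniversalEnvelopingAlgebra.ι R (b k) := by
  have h1 : UniversalEnvelopingAlgebra.ι R (b i) * UniversalEnvelopingAlgebra.ι R (b j) -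
      UniversalEnvelopingAlgebra.ι R (b j) * UniversalEnvelopingAlgebra.ι R (b i) =
      UniversalEnvelopingAlgebra.ι R ⁅b i, b j⁆ := by
    rw [LieHom.map_lie]
    rfl
  rw [h1]
  conv_lhs => rw [← b.sum_repr ⁅b i, b j⁆]
  rw [map_sum]
  exact Finset.sum_congr rfl fun k _ => map_smul _ _ _

/-- Elements with the commutation relations of a basis give a representation of the enveloping
algebra. -/
theorem ex_rep {n : ℕ} (b : Basis (Fin n) R L) {A : Type} [Ring A] [Algebra R A] (T : Fin n → A)
    (hT : ∀ i j, T i * T j - T j * T i = ∑ k, b.repr ⁅b i, b j⁆ k • T k) :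
    ∃ F : UniversalEnvelopingAlgebra R L →ₐ[R] A,
      ∀ i, F (UniversalEnvelopingAlgebra.ι R (b i)) = T i := by
  obtain ⟨f, hf⟩ : ∃ f : L →ₗ[R] A, f = b.constr R T := ⟨_, rfl⟩
  have hfb : ∀ i, f (b i) = T i := fun i => by
    rw [hf, Basis.constr_basis]
  have h1 : ∀ i j, f ⁅b i, b j⁆ = f (b i) * f (b j) - f (b j) * f (b i) := by
    intro i j
    conv_lhs => rw [← b.sum_repr ⁅b i, b j⁆]
    rw [hfb, hfb, hT, map_sum]
    exact Finset.sum_congr rfl fun k _ => by rw [map_smul, hfb]
  have h2 : ∀ x y : L, f ⁅x, y⁆ = f x * f y - f y * f x := by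
    intro x y
    rw [← b.sum_repr x, ← b.sum_repr y]
    simp only [sum_lie, lie_sum, smul_lie, lie_smul, map_sum, map_smul, Finset.sum_mul,
      Finset.mul_sum, smul_mul_assoc, mul_smul_comm, h1, smul_sub, Finset.sum_sub_distrib]
    refine congrArg₂ (· - ·) rfl ?_
    simp only [Finset.smul_sum]
    rw [Finset.sum_comm]
    exact Finset.sum_congr rfl fun j _ => Finset.sum_congr rfl fun i _ => smul_comm _ _ _
  refine ⟨UniversalEnvelopingAlgebra.lift R { f with map_lie' := fun {x y} => h2 x y },
    fun i => ?_⟩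
  rw [UniversalEnvelopingAlgebra.lift_ι_apply]
  exact hfb i

end lie

section pm

variable {R L : Type} [CommRing R] [LieRing L] [LieAlgebra R L] {n : ℕ} (b : Basis (Fin n) R L)

theorem pm_mon (α : Fin n →₀ ℕ) :
    pm b (monomial α 1) = mo (fun i => UniversalEnvelopingAlgebra.ι R (b i)) α := by
  have h := (MvPolynomial.basisMonomials (Fin n) R).constr_basis R
    (fun α : Fin n →₀ ℕ => mo (fun i => UniversalEnvelopingAlgebra.ι R (b i)) α) α
  rwa [MvPolynomial.coe_basisMonomials] at h

theorem pm_mon_r (α : Fin n →₀ ℕ) (r : R) :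
    pm b (monomial α r) = r • mo (fun i => UniversalEnvelopingAlgebra.ι R (b i)) α := by
  rw [← pm_mon, ← map_smul, smul_monomial, smul_eq_mul, mul_one]

/-- The elements of lower degree are values of `pm`. -/
theorem low_pm {k : ℕ} {u : UniversalEnvelopingAlgebra R L}
    (hu : u ∈ low R (fun i => UniversalEnvelopingAlgebra.ι R (b i)) k) :
    ∃ h : MvPolynomial (Fin n) R, (∀ α ∈ h.support, α.degree < k) ∧ pm b h = u := by
  refine Submodule.span_induction (p := fun u _ => ∃ h : MvPolynomial (Fin n) R,
    (∀ α ∈ h.support, α.degree < k) ∧ pm b h = u) ?_ ?_ ?_ ?_ hu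
  · rintro u ⟨α, h1, rfl⟩
    refine ⟨monomial (Finsupp.equivFunOnFinite.symm α) 1, fun β hβ => ?_, ?_⟩
    · have h2 := Finset.mem_singleton.1 (support_monomial_subset hβ)
      rw [h2, Finsupp.degree_eq_sum]
      exact h1
    · rw [pm_mon]
      rfl
  · exact ⟨0, by simp, map_zero _⟩
  · rintro u v _ _ ⟨h1, k1, rfl⟩ ⟨h2, k2, rfl⟩
    refine ⟨h1 + h2, fun α hα => ?_, map_add _ _ _⟩
    rcases Finset.mem_union.1 (support_add hα) with h | h
    · exact k1 α h
    · exact k2 α h
  · rintro c u _ ⟨h, k1, rfl⟩
    exact ⟨c • h, fun α hα => k1 α (support_smul hα), map_smul _ _ _⟩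

end pm

end Pool.MFL.OR

namespace Pool.MFL

open Pool.MFQ.Ord (mo mo_zero mo_head ex_head sum_single)
open OR

/-- PRD: products of ordered monomials, modulo lower degree. -/
theorem t_prd : PRDStmt := by
  intro R L _ _ _ n b f g d e hf hg
  obtain ⟨x, hx⟩ : ∃ x : Fin n → UniversalEnvelopingAlgebra R L,
    x = fun i => UniversalEnvelopingAlgebra.ι R (b i) := ⟨_, rfl⟩
  have hcx : ∀ i j, ∃ c : Fin n → R, x i * x j - x j * x i = ∑ k, c k • x k := fun i j => by
    rw [hx]
    exact ⟨_, comm_basis b i j⟩
  have hpm : ∀ p : MvPolynomial (Fin n) R, pm b p = ∑ α ∈ p.support, coeff α p • mo x α := by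
    intro p
    conv_lhs => rw [p.as_sum, map_sum]
    exact Finset.sum_congr rfl fun α _ => by rw [pm_mon_r, hx]
  have hmem : pm b f * pm b g - pm b (f * g) ∈ low R x (d + e) := by
    have e1 : pm b (f * g) = ∑ α ∈ f.support, ∑ β ∈ g.support,
        (coeff α f * coeff β g) • mo x (α + β : Fin n →₀ ℕ) := by
      conv_lhs => rw [f.as_sum, g.as_sum, Finset.sum_mul_sum]
      rw [map_sum]
      refine Finset.sum_congr rfl fun α _ => ?_
      rw [map_sum]
      refine Finset.sum_congr rfl fun β _ => ?_
      rw [monomial_mul, pm_mon_r, hx]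
    rw [e1, hpm f, hpm g, Finset.sum_mul_sum, ← Finset.sum_sub_distrib]
    refine sum_mem fun α hα => ?_
    rw [← Finset.sum_sub_distrib]
    refine sum_mem fun β hβ => ?_
    rw [smul_mul_smul_comm, ← smul_sub]
    refine Submodule.smul_mem _ _ ?_
    have h1 := mo_mul hcx _ α β rfl
    have h2 : ∑ j, α j ≤ d := by
      rw [← Finsupp.degree_eq_sum]
      exact (le_totalDegree hα).trans hf
    have h3 : ∑ j, β j ≤ e := by
      rw [← Finsupp.degree_eq_sum]
      exact (le_totalDegree hβ).trans hg
    exact low_mono x (by omega) h1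
  rw [hx] at hmem
  obtain ⟨h, h1, h2⟩ := low_pm b hmem
  refine ⟨h, ?_, ?_⟩
  · rcases eq_or_ne h 0 with h3 | h3
    · exact Or.inl h3
    · right
      obtain ⟨α, hα⟩ := Finset.nonempty_iff_ne_empty.2 fun h4 => h3 (support_eq_empty.1 h4)
      have h5 := h1 α hα
      rw [totalDegree]
      refine (Finset.sup_lt_iff (by
        show (0 : ℕ) < d + e
        omega)).2 fun β hβ => ?_
      exact h1 β hβ
  · rw [map_add, h2]
    abel

/-- PAB: polynomials in commuting basis elements. -/
theorem t_pab : PABStmt := by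
  intro R L σ _ _ _ n b j hj _ e he φ
  obtain ⟨x, hx⟩ : ∃ x : Fin n → UniversalEnvelopingAlgebra R L,
    x = fun i => UniversalEnvelopingAlgebra.ι R (b i) := ⟨_, rfl⟩
  have key : ∀ (k : ℕ) (α : σ →₀ ℕ), α.degree = k →
      e (monomial α 1) = mo x (Finsupp.mapDomain j α : Fin n →₀ ℕ) := by
    intro k
    induction k with
    | zero =>
      intro α hα
      have h1 : α = 0 := (Finsupp.degree_eq_zero_iff α).1 hα
      rw [h1, Finsupp.mapDomain_zero]
      have h2 : ((0 : Fin n →₀ ℕ) : Fin n → ℕ) = 0 := rfl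
      rw [h2, mo_zero]
      exact map_one e
    | succ k ih =>
      intro α hα
      classical
      have h1 : ∃ i, (Finsupp.mapDomain j α : Fin n →₀ ℕ) i ≠ 0 := by
        by_contra hcon
        push Not at hcon
        have h2 : Finsupp.mapDomain j α = 0 := Finsupp.ext hcon
        have h3 : α = 0 := by
          apply Finsupp.mapDomain_injective hj
          rw [h2, Finsupp.mapDomain_zero]
        rw [h3, map_zero] at hα
        omega
      obtain ⟨i, hi⟩ := h1
      obtain ⟨i', β, -, h2, -, h4, -⟩ := ex_head hi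
      have h5 : (Finsupp.mapDomain j α : Fin n →₀ ℕ) i' ≠ 0 := by
        rw [h4, Pi.add_apply, Pi.single_eq_same]
        omega
      have h6 : i' ∈ α.support.image j :=
        Finsupp.mapDomain_support (Finsupp.mem_support_iff.2 h5)
      obtain ⟨l, hl, rfl⟩ := Finset.mem_image.1 h6
      have h7 : α - Finsupp.single l 1 + Finsupp.single l 1 = α := by
        apply tsub_add_cancel_of_le
        rw [Finsupp.single_le_iff]
        exact Nat.one_le_iff_ne_zero.mpr (Finsupp.mem_support_iff.mp hl)
      obtain ⟨α', hα'⟩ : ∃ α', α' = α - Finsupp.single l 1 := ⟨_, rfl⟩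
      rw [← hα'] at h7
      have h8 : α'.degree = k := by
        have := congrArg Finsupp.degree h7
        rw [map_add, Finsupp.degree_single, hα] at this
        omega
      have h9 : β = (Finsupp.mapDomain j α' : Fin n →₀ ℕ) := by
        rw [← h7, Finsupp.mapDomain_add, Finsupp.mapDomain_single] at h4
        funext i
        have h10 := congrFun h4 i
        rw [Pi.add_apply, Finsupp.add_apply, Finsupp.single_apply, Pi.single_apply] at h10
        simp only [eq_comm (a := j l)] at h10
        omega
      have h11 : (monomial α (1 : R)) = X l * monomial α' 1 := by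
        rw [X, monomial_mul, mul_one, add_comm, h7]
      rw [h11, map_mul, he, ih α' h8, ← h9]
      have h12 := mo_head x (j l) β h2
      rw [← h4] at h12
      rw [← h12, hx]
  conv_lhs => rw [φ.as_sum, map_sum]
  conv_rhs => rw [φ.as_sum, map_sum, map_sum]
  refine Finset.sum_congr rfl fun α _ => ?_
  rw [rename_monomial, pm_mon_r, ← hx, ← key _ α rfl, ← map_smul, smul_monomial, smul_eq_mul,
    mul_one]

/-- BCH: base change. -/
theorem t_bch : BCHStmt := by
  intro R R' L L' _ _ _ _ _ _ φ n b b' hb
  let _ : Algebra R (UniversalEnvelopingAlgebra R' L') := Algebra.compHom _ φ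
  have hsm : ∀ (r : R) (u : UniversalEnvelopingAlgebra R' L'), r • u = φ r • u := fun _ _ => rfl
  obtain ⟨F, hF⟩ := ex_rep b (fun i => UniversalEnvelopingAlgebra.ι R' (b' i)) (fun i j => by
    rw [comm_basis b' i j]
    exact Finset.sum_congr rfl fun k _ => by rw [hb, hsm])
  have hmo : ∀ α : Fin n → ℕ, F (mo (fun i => UniversalEnvelopingAlgebra.ι R (b i)) α) =
      mo (fun i => UniversalEnvelopingAlgebra.ι R' (b' i)) α := by
    intro α
    unfold mo
    rw [map_list_prod, List.map_ofFn]
    congr 1
    congr 1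
    funext i
    rw [Function.comp_apply, map_pow, hF]
  refine ⟨F.toRingHom, fun r => ?_, hF, fun f => ?_⟩
  · show F (algebraMap R _ r) = _
    rw [AlgHom.commutes]
    rfl
  · show F (pm b f) = _
    conv_lhs => rw [f.as_sum, map_sum, map_sum]
    conv_rhs => rw [f.as_sum, map_sum, map_sum]
    refine Finset.sum_congr rfl fun α _ => ?_
    rw [pm_mon_r, map_monomial, pm_mon_r, map_smul, hmo, hsm]

end Pool.MFL
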